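import Pool.Agent.Q251.Quiddity
import Mathlib.Data.Set.Finite.List

/-!
# `(E_N)` has finitely many irreducible solutions
-/

namespace Pool.Agent.Results.MP_762e7e_co.Finite

open Pool.Agent.Q251.Quiddity Matrix

/-- A solution in which a factor with trivial monodromy can be cut out is reducible. -/
lemma not_irreducible {N : ℕ} {pre w suf : List (ZMod N)} (hw : w ≠ []) (hsuf : 3 ≤ suf.length)
    (hMw : M w = 1) : ¬ IsIrreducible (pre ++ w ++ suf) := by
  rintro ⟨hsol, -, hirr⟩
  apply hirr
  -- the first component
  obtain ⟨u, as, v, hx⟩ : ∃ (u : ZMod N) (as : List (ZMod N)) (v : ZMod N),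
      suf ++ pre = u :: (as ++ [v]) := by
    match hs : suf, hsuf with
    | u :: u' :: rest, _ =>
      refine ⟨u, (u' :: (rest ++ pre)).dropLast, (u' :: (rest ++ pre)).getLast (by simp), ?_⟩
      rw [List.dropLast_append_getLast]
      simp
  refine ⟨suf ++ pre, 0 :: (w ++ [0]), suf ++ pre ++ w, ?_, ?_, ?_, ?_, ?_, ?_⟩
  · have h1 : M (pre ++ w ++ suf) = M suf * M pre := by
      rw [M_append, M_append, hMw, one_mul]
    have h2 : M (suf ++ pre) = M pre * M suf := M_append _ _
    rcases hsol with h | h
    · left
      rw [h1] at h
      rw [h2]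
      exact mul_eq_one_comm.mp h
    · right
      rw [h1] at h
      rw [h2]
      have h3 : (-M suf) * M pre = 1 := by rw [neg_mul, h, neg_neg]
      have h4 := mul_eq_one_comm.mp h3
      rw [mul_neg] at h4
      rw [← h4, neg_neg]
  · rw [List.length_append]; omega
  · right
    rw [M_cons, M_append, hMw, mul_one, M_cons, M_nil, one_mul]
    ext i j
    fin_cases i <;> fin_cases j <;> simp [A, Matrix.mul_apply, Fin.sum_univ_two]
  · have : 0 < w.length := List.length_pos_iff.mpr hw
    simp only [List.length_cons, List.length_append, List.length_nil]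
    omega
  · refine ⟨u, as, v, 0, w, 0, hx, rfl, ?_⟩
    rw [hx]
    simp
  · left
    have : (pre ++ (w ++ suf)) ~r ((w ++ suf) ++ pre) := List.isRotated_append
    rw [List.append_assoc pre w suf]
    refine List.IsRotated.symm (this.trans ?_)
    have h2 : (w ++ (suf ++ pre)) ~r ((suf ++ pre) ++ w) := List.isRotated_append
    rw [List.append_assoc w suf pre]
    exact h2

/-- Sizes of irreducible solutions are bounded. -/
lemma length_le {N : ℕ} [NeZero N] {l : List (ZMod N)} (hl : IsIrreducible l) :
    l.length ≤ Fintype.card (Matrix (Fin 2) (Fin 2) (ZMod N)) + 2 := by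
  classical
  by_contra hcon
  push Not at hcon
  have hcard : Fintype.card (Matrix (Fin 2) (Fin 2) (ZMod N)) <
      Fintype.card (Fin (l.length - 2)) := by
    rw [Fintype.card_fin]; omega
  obtain ⟨i, j, hij, hM⟩ := Fintype.exists_ne_map_eq_of_card_lt
    (fun i : Fin (l.length - 2) => M (l.take i.val)) hcard
  have key : ∀ i j : ℕ, i < j → j < l.length - 2 → M (l.take i) = M (l.take j) → False := by
    intro i j hij hj hM
    -- l = take i ++ (drop i (take j)) ++ drop j
    have h1 : l.take j = l.take i ++ (l.take j).drop i := by
      conv_lhs => rw [← List.take_append_drop i (l.take j)]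
      rw [List.take_take, min_eq_left hij.le]
    have h2 : l = l.take i ++ (l.take j).drop i ++ l.drop j := by
      rw [← h1, List.take_append_drop]
    have hMw : M ((l.take j).drop i) = 1 := by
      have h3 : M (l.take j) = M ((l.take j).drop i) * M (l.take i) := by
        conv_lhs => rw [h1]
        rw [M_append]
      rw [← hM] at h3
      have hdet : IsUnit (M (l.take i)).det := by rw [det_M]; exact isUnit_one
      calc M ((l.take j).drop i)
          = M ((l.take j).drop i) * (M (l.take i) * (M (l.take i))⁻¹) := by
            rw [Matrix.mul_nonsing_inv _ hdet, mul_one]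
        _ = (M ((l.take j).drop i) * M (l.take i)) * (M (l.take i))⁻¹ := by rw [mul_assoc]
        _ = 1 := by rw [← h3, Matrix.mul_nonsing_inv _ hdet]
    have hw : (l.take j).drop i ≠ [] := by
      intro h
      have := congrArg List.length h
      rw [List.length_drop, List.length_take, List.length_nil] at this
      omega
    have hsuf : 3 ≤ (l.drop j).length := by
      rw [List.length_drop]; omega
    rw [h2] at hl
    exact not_irreducible hw hsuf hMw hl
  rcases lt_trichotomy i.val j.val with h | h | h
  · exact key _ _ h j.isLt hM
  · exact hij (Fin.ext h)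
  · exact key _ _ h i.isLt hM.symm

/-- For every `N ≥ 2` the equation `(E_N)` has only finitely many irreducible solutions. -/
theorem result : ∀ N : ℕ, 2 ≤ N → {l : List (ZMod N) | IsIrreducible l}.Finite := by
  intro N hN
  have : NeZero N := ⟨by omega⟩
  exact (List.finite_length_le (ZMod N)
    (Fintype.card (Matrix (Fin 2) (Fin 2) (ZMod N)) + 2)).subset (fun l hl => length_le hl)

end Pool.Agent.Results.MP_762e7e_co.Finite
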